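import Mathlib
import Pool.Agent.Q199.Ultra.Defs
import Pool.Agent.Q199.Ultra.Main

set_option autoImplicit false

namespace Pool.Agent.Results.MP_17402e_an.LinftyUltraproducts

open Pool.Agent.Q199.Ultra Cardinal

universe u

/-- `E` is `κ`-injective: every operator `t : Y → E` on a closed subspace `Y` of a Banach space
`W` of density `< κ` extends to an operator `T : W → E`. -/
def IsAlephInjective (𝕜 : Type) [RCLike 𝕜] (E : Type u) [NormedAddCommGroup E] [NormedSpace 𝕜 E]
    (κ : Cardinal.{u}) : Prop :=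
  ∀ (W : Type u) [NormedAddCommGroup W] [NormedSpace 𝕜 W] [CompleteSpace W] (Y : Submodule 𝕜 W),
    IsClosed (Y : Set W) → dens W < κ → ∀ t : Y →L[𝕜] E,
      ∃ T : W →L[𝕜] E, ∀ y : Y, T (y : W) = t y

/-- Let `κ` be an infinite cardinal, `U` a countably incomplete `κ`-good ultrafilter on `I` and
`X i` Banach spaces over `ℝ` or `ℂ`. If the ultraproduct `E` of the `X i` over `U` is an
`ℒ_∞`-space with constant `lam`, then `E` is `κ`-injective, and if `κ` is uncountable then `E` is
even universally `(lam, κ)`-injective. -/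
theorem result (𝕜 : Type) [RCLike 𝕜] (κ : Cardinal.{u}) (hκ : ℵ₀ ≤ κ) (I : Type u)
    (U : Ultrafilter I) (hinc : CountablyIncomplete U) (hgood : IsGood U κ) (X : I → Type u)
    [∀ i, NormedAddCommGroup (X i)] [∀ i, NormedSpace 𝕜 (X i)] [∀ i, CompleteSpace (X i)]
    (lam : ℝ) (hX : IsLinfty 𝕜 (UProd 𝕜 U X) lam) :
    IsAlephInjective 𝕜 (UProd 𝕜 U X) κ ∧ (ℵ₀ < κ → IsUnivInjective 𝕜 (UProd 𝕜 U X) lam κ) := by
  have hlam : 0 ≤ lam := by
    obtain ⟨G, _, _, m, e, he⟩ := hX ⊥ inferInstance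
    exact le_trans (by positivity) he
  have hL : ∀ μ, lam < μ → IsLinfty 𝕜 (UProd 𝕜 U X) μ := by
    intro μ hμ F hF
    obtain ⟨G, hG, hFG, m, e, he⟩ := hX F hF
    exact ⟨G, hG, hFG, m, e, he.trans hμ.le⟩
  have huniv : ℵ₀ < κ → IsUnivInjective 𝕜 (UProd 𝕜 U X) lam κ := fun h =>
    univInjective h hinc hgood hlam hL
  refine ⟨?_, huniv⟩
  intro W _ _ _ Y hY hd t
  rcases eq_or_lt_of_le hκ with h | h
  · -- `κ = ℵ₀`: the space `W` is zero
    have hfin : ∃ D : Set W, Dense D ∧ D.Finite := by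
      have hne : {c : Cardinal.{u} | ∃ S : Set W, Dense S ∧ #S = c}.Nonempty :=
        ⟨_, Set.univ, dense_univ, rfl⟩
      obtain ⟨D, hD, hc⟩ := csInf_mem hne
      refine ⟨D, hD, ?_⟩
      rw [← Cardinal.lt_aleph0_iff_set_finite, hc, h]
      exact hd
    obtain ⟨D, hD, hDf⟩ := hfin
    have hDu : D = Set.univ := by
      rw [← hDf.isClosed.closure_eq]; exact hD.closure_eq
    have hWfin : Finite W := Set.finite_univ_iff.1 (hDu ▸ hDf)
    have hsub : Subsingleton W := by
      by_contra hns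
      rw [not_subsingleton_iff_nontrivial] at hns
      have : Infinite W := Module.Free.infinite 𝕜 W
      exact not_finite W
    refine ⟨0, fun y => ?_⟩
    have hy : y = 0 := by
      ext1
      exact Subsingleton.elim _ _
    rw [hy]; simp
  · obtain ⟨T, hT, _⟩ := huniv h W Y hY (dens_sub_lt Y h hd) t
    exact ⟨T, hT⟩

end Pool.Agent.Results.MP_17402e_an.LinftyUltraproducts
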